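import Pool.Agent.Helper8.SE.Sheet

/-! Row ENV: smooth envelopes. -/

set_option autoImplicit false

open scoped ContDiff
open Set Filter Topology

namespace Pool.Agent.Helper8.SE

universe u

/-- iterated smooth minimum -/
noncomputable def envSeq {X : Type u} (m : ℕ → ℝ → ℝ → ℝ) (g : ℕ → X → ℝ) : ℕ → X → ℝ
  | 0 => g 0
  | n + 1 => fun x => m (n + 1) (envSeq m g n x) (g (n + 1) x)

theorem env_c {X : Type u} [NormedAddCommGroup X] [NormedSpace ℝ X] {k : WithTop ℕ∞} (hk : k ≤ ∞)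
    {m : ℕ → ℝ → ℝ → ℝ} (hm : ∀ n, ContDiff ℝ ∞ (fun p : ℝ × ℝ => m n p.1 p.2))
    {g : ℕ → X → ℝ} (hg : ∀ n, ContDiff ℝ k (g n)) (n : ℕ) : ContDiff ℝ k (envSeq m g n) := by
  induction n with
  | zero => exact hg 0
  | succ n ih => exact ((hm (n + 1)).of_le hk).comp (ih.prodMk (hg (n + 1)))

theorem env_l {X : Type u} [NormedAddCommGroup X] [NormedSpace ℝ X] {c : ℝ}
    {m : ℕ → ℝ → ℝ → ℝ}
    (hm : ∀ n, ∀ a b a' b' t : ℝ, |a - a'| ≤ t → |b - b'| ≤ t → |m n a b - m n a' b'| ≤ t)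
    {g : ℕ → X → ℝ} (hg : ∀ n x y, |g n x - g n y| ≤ c * ‖x - y‖) (n : ℕ) (x y : X) :
    |envSeq m g n x - envSeq m g n y| ≤ c * ‖x - y‖ := by
  induction n with
  | zero => exact hg 0 x y
  | succ n ih => exact hm (n + 1) _ _ _ _ _ ih (hg (n + 1) x y)

theorem env_m {X : Type u} {m : ℕ → ℝ → ℝ → ℝ} (hm : ∀ n a b, m n a b ≤ min a b)
    (g : ℕ → X → ℝ) (n : ℕ) (x : X) : envSeq m g (n + 1) x ≤ envSeq m g n x :=
  (hm (n + 1) _ _).trans (min_le_left _ _)

theorem env_le {X : Type u} {m : ℕ → ℝ → ℝ → ℝ} (hm : ∀ n a b, m n a b ≤ min a b)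
    (g : ℕ → X → ℝ) (n : ℕ) (x : X) : ∀ j ≤ n, envSeq m g n x ≤ g j x := by
  induction n with
  | zero =>
    intro j hj
    have : j = 0 := by omega
    subst this
    exact le_rfl
  | succ n ih =>
    intro j hj
    rcases Nat.lt_or_ge j (n + 1) with h | h
    · exact (env_m hm g n x).trans (ih j (by omega))
    · have : j = n + 1 := by omega
      subst this
      exact (hm (n + 1) _ _).trans (min_le_right _ _)

theorem env_ex {X : Type u} {e : ℝ} (he : 0 < e) {m : ℕ → ℝ → ℝ → ℝ}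
    (hm : ∀ n a b, min a b - e / 2 ^ (n + 3) ≤ m n a b)
    (g : ℕ → X → ℝ) (n : ℕ) (x : X) :
    ∃ j ≤ n, g j x ≤ envSeq m g n x + (e / 4 - e / 2 ^ (n + 3)) := by
  induction n with
  | zero =>
    refine ⟨0, le_rfl, ?_⟩
    show g 0 x ≤ g 0 x + (e / 4 - e / 2 ^ (0 + 3))
    norm_num
    linarith
  | succ n ih =>
    obtain ⟨j, hj, h⟩ := ih
    have h1 := hm (n + 1) (envSeq m g n x) (g (n + 1) x)
    have h2 : e / 2 ^ (n + 3) = 2 * (e / 2 ^ (n + 1 + 3)) := by
      rw [show n + 1 + 3 = (n + 3) + 1 by ring, pow_succ (2 : ℝ) (n + 3)]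
      field_simp
    rcases le_total (envSeq m g n x) (g (n + 1) x) with h3 | h3
    · refine ⟨j, by omega, ?_⟩
      rw [min_eq_left h3] at h1
      show g j x ≤ m (n + 1) (envSeq m g n x) (g (n + 1) x) + (e / 4 - e / 2 ^ (n + 1 + 3))
      linarith
    · refine ⟨n + 1, le_rfl, ?_⟩
      rw [min_eq_right h3] at h1
      have h4 : e / 2 ^ (n + 1 + 3) ≤ e / 8 := by
        apply div_le_div_of_nonneg_left he.le (by norm_num)
        calc (8 : ℝ) = 2 ^ 3 := by norm_num
          _ ≤ 2 ^ (n + 1 + 3) := pow_le_pow_right₀ (by norm_num) (by omega)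
      show g (n + 1) x ≤ m (n + 1) (envSeq m g n x) (g (n + 1) x) + (e / 4 - e / 2 ^ (n + 1 + 3))
      linarith

theorem env_ex' {X : Type u} {e : ℝ} (he : 0 < e) {m : ℕ → ℝ → ℝ → ℝ}
    (hm : ∀ n a b, min a b - e / 2 ^ (n + 3) ≤ m n a b)
    (g : ℕ → X → ℝ) (n : ℕ) (x : X) : ∃ j ≤ n, g j x ≤ envSeq m g n x + e / 4 := by
  obtain ⟨j, hj, h⟩ := env_ex he hm g n x
  refine ⟨j, hj, ?_⟩
  have : 0 < e / 2 ^ (n + 3) := by positivity
  linarith

theorem stENV (h1 : ST_SMIN) : ST_ENV.{u} := by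
  intro X _ _ k c hk hN f hf z e he
  have hη : ∀ n : ℕ, 0 < e / 2 ^ (n + 3) := fun n => by positivity
  have hη8 : ∀ n : ℕ, e / 2 ^ (n + 3) ≤ e / 8 := by
    intro n
    apply div_le_div_of_nonneg_left he.le (by norm_num)
    calc (8 : ℝ) = 2 ^ 3 := by norm_num
      _ ≤ 2 ^ (n + 3) := pow_le_pow_right₀ (by norm_num) (by omega)
  choose ν hνc hνl hνe using fun n : ℕ => hN (e / 2 ^ (n + 3)) (hη n)
  choose m hmc hml hmg hmm using fun n : ℕ => h1 (e / 2 ^ (n + 3)) (hη n)
  have base_c : ∀ (s : ℕ → ℝ) (n : ℕ), ContDiff ℝ k (fun x => s n + ν n (x - z n)) := by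
    intro s n
    exact contDiff_const.add ((hνc n).comp (contDiff_id.sub contDiff_const))
  have base_l : ∀ (s : ℕ → ℝ) (n : ℕ) (x y : X),
      |(s n + ν n (x - z n)) - (s n + ν n (y - z n))| ≤ c * ‖x - y‖ := by
    intro s n x y
    have := hνl n (x - z n) (y - z n)
    rw [show x - z n - (y - z n) = x - y by abel] at this
    rw [show (s n + ν n (x - z n)) - (s n + ν n (y - z n)) = ν n (x - z n) - ν n (y - z n) by
      ring]
    exact this
  have up : ∀ n x, ν n (x - z n) ≤ ‖x - z n‖ + e / 8 := by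
    intro n x
    have := (abs_le.mp (hνe n (x - z n))).2
    have := hη8 n
    linarith
  have lo : ∀ n x, ‖x - z n‖ ≤ ν n (x - z n) + e / 8 := by
    intro n x
    have := (abs_le.mp (hνe n (x - z n))).1
    have := hη8 n
    linarith
  refine ⟨{
    D := envSeq m (fun n x => (fun _ => (0:ℝ)) n + ν n (x - z n))
    U := envSeq m (fun n x => (fun j => f (z j)) n + ν n (x - z n))
    V := fun n x => - envSeq m (fun n x => (fun j => - f (z j)) n + ν n (x - z n)) n x
    Dc := fun n => env_c hk hmc (base_c (fun _ => 0)) n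
    Uc := fun n => env_c hk hmc (base_c (fun j => f (z j))) n
    Vc := fun n => (env_c hk hmc (base_c (fun j => - f (z j))) n).neg
    Dl := fun n x y => env_l hml (base_l (fun _ => 0)) n x y
    Ul := fun n x y => env_l hml (base_l (fun j => f (z j))) n x y
    Vl := ?_
    Dm := fun n x => env_m hmm _ n x
    Um := fun n x => env_m hmm _ n x
    Vm := fun n x => neg_le_neg (env_m hmm _ n x)
    fU := ?_
    Vf := ?_
    UV := ?_
    Dz := ?_ }⟩
  · intro n x y
    have := env_l hml (base_l (fun j => - f (z j))) n x y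
    rw [abs_sub_comm] at this
    rw [neg_sub_neg]
    exact this
  · intro n x
    obtain ⟨j, hj, h⟩ := env_ex' he hmg (fun n x => (fun j => f (z j)) n + ν n (x - z n)) n x
    have h2 := (abs_le.mp (hf x (z j))).2
    have h3 := lo j x
    simp only at h
    linarith
  · intro n x
    obtain ⟨j, hj, h⟩ := env_ex' he hmg (fun n x => (fun j => - f (z j)) n + ν n (x - z n)) n x
    have h2 := (abs_le.mp (hf x (z j))).1
    have h3 := lo j x
    simp only at h
    show - _ ≤ f x + e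
    linarith
  · intro n x
    obtain ⟨j, hj, h⟩ := env_ex' he hmg (fun n x => (fun _ => (0:ℝ)) n + ν n (x - z n)) n x
    have h2 := env_le hmm (fun n x => (fun j => f (z j)) n + ν n (x - z n)) n x j hj
    have h3 := env_le hmm (fun n x => (fun j => - f (z j)) n + ν n (x - z n)) n x j hj
    simp only at h h2 h3
    show _ - (- _) ≤ 2 * (_ + e)
    linarith
  · intro n x j hj
    have h2 := env_le hmm (fun n x => (fun _ => (0:ℝ)) n + ν n (x - z n)) n x j hj
    have h3 := up j x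
    simp only at h2
    linarith

end Pool.Agent.Helper8.SE
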